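import Mathlib
import Pool.Agent.H94CK.Ops

namespace Pool.Agent.Results.MP_25ed80_an.NoEmbedding

open Filter Topology Pool.Agent.H94CK

/-! ## Definitions used by the statement -/

/-- `[0, ω₁]`, the set of ordinals `≤ ω₁` with its order topology. -/
abbrev OmegaSeg : Type 1 := Set.Icc (0 : Ordinal.{0}) (Ordinal.omega 1)

/-- `K` is scattered: every nonempty subset has a point that is isolated in that subset. -/
def Scattered (K : Type) [TopologicalSpace K] : Prop :=
  ∀ S : Set K, S.Nonempty → ∃ x ∈ S, ∃ U : Set K, IsOpen U ∧ U ∩ S = {x}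

/-- The `Σ`-product `Σ(Γ)` in `ℝ^Γ`: the vectors of countable support. -/
def SigmaProd (Γ : Type) : Set (Γ → ℝ) := {x | {γ | x γ ≠ 0}.Countable}

/-- `K` is a Valdivia compact space (for compact `K`). -/
def Valdivia (K : Type) [TopologicalSpace K] : Prop :=
  ∃ (Γ : Type) (h : K → (Γ → ℝ)), IsEmbedding h ∧
    Set.range h ⊆ closure (Set.range h ∩ SigmaProd Γ)

/-- `K` contains a subspace homeomorphic to `[0, ω₁]`. -/
def ContainsOmegaSeg (K : Type) [TopologicalSpace K] : Prop :=
  ∃ j : OmegaSeg → K, IsEmbedding j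

/-- `X` embeds into `Y`: it is linearly isomorphic to a closed subspace of `Y`. -/
def EmbedsInto (X Y : Type*) [NormedAddCommGroup X] [NormedSpace ℝ X] [NormedAddCommGroup Y]
    [NormedSpace ℝ Y] : Prop :=
  ∃ Z : Submodule ℝ Y, IsClosed (Z : Set Y) ∧ Nonempty (X ≃L[ℝ] Z)

/-! ## The index set -/

/-- the countable ordinals -/
abbrev W : Type := (Ordinal.omega 1 : Ordinal.{0}).ToType

/-- the ordinal of a point of `W` -/
noncomputable def val (w : W) : Ordinal.{0} := (Ordinal.ToType.toOrd w : Ordinal.{0})

theorem val_lt (w : W) : val w < Ordinal.omega 1 := (Ordinal.ToType.toOrd w).2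

theorem val_lt_val {a b : W} : val a < val b ↔ a < b := by
  unfold val
  rw [Subtype.coe_lt_coe]
  exact OrderIso.lt_iff_lt _

theorem exists_val {o : Ordinal.{0}} (h : o < Ordinal.omega 1) : ∃ w : W, val w = o := by
  refine ⟨Ordinal.ToType.mk ⟨o, h⟩, ?_⟩
  unfold val Ordinal.ToType.toOrd
  rw [OrderIso.symm_apply_apply]

theorem omega_pos : (0 : Ordinal.{0}) < Ordinal.omega 1 := Ordinal.omega_pos 1

instance : Nonempty W := ⟨(exists_val omega_pos).choose⟩

theorem hub : Hub W := by
  intro s
  have h : ∀ n, val (s n) + 1 < Ordinal.omega 1 := by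
    intro n
    exact (Cardinal.isSuccLimit_omega 1).add_one_lt (val_lt _)
  have h2 := Ordinal.iSup_lt_omega_one h
  obtain ⟨b, hb⟩ := exists_val h2
  refine ⟨b, fun n => ?_⟩
  rw [← val_lt_val, hb]
  have h3 : val (s n) + 1 ≤ ⨆ n, (val (s n) + 1) := Ordinal.le_iSup _ n
  exact lt_of_lt_of_le (lt_add_one _) h3

theorem hcount (a : W) : (Set.Iio a).Countable := by
  have h1 : (Set.Iio (val a)).Countable := by
    rw [← Cardinal.le_aleph0_iff_set_countable, Cardinal.mk_Iio_ordinal]
    have h2 := val_lt a
    rw [← Cardinal.ord_aleph, Cardinal.lt_ord] at h2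
    rw [← Cardinal.lift_aleph0.{1, 0}, Cardinal.lift_le]
    rw [← Cardinal.succ_aleph0, Order.lt_succ_iff] at h2
    exact h2
  have hmaps : Set.MapsTo val (Set.Iio a) (Set.Iio (val a)) := fun w hw => val_lt_val.mpr hw
  refine hmaps.countable_of_injOn ?_ h1
  intro x _ y _ hxy
  rcases lt_trichotomy x y with h | h | h
  · exact absurd hxy (val_lt_val.mpr h).ne
  · exact h
  · exact absurd hxy (val_lt_val.mpr h).ne'

/-! ## The space -/

theorem isClopen_gt (w : W) : IsClopen {x : OmegaSeg | val w < x.1} := by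
  constructor
  · have : {x : OmegaSeg | val w < x.1} = {x : OmegaSeg | val w + 1 ≤ x.1} := by
      ext x
      show val w < x.1 ↔ val w + 1 ≤ x.1
      exact (Order.add_one_le_iff (x := val w) (y := x.1)).symm
    rw [this]
    exact isClosed_le continuous_const continuous_subtype_val
  · exact isOpen_lt continuous_const continuous_subtype_val

theorem continuous_ite_gt {β : Type} [TopologicalSpace β] (w : W) (p q : β) [∀ x : OmegaSeg,
    Decidable (val w < x.1)] : Continuous (fun x : OmegaSeg => if val w < x.1 then p else q) := by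
  apply Continuous.if
  · intro a ha
    rw [(isClopen_gt w).frontier_eq] at ha
    exact absurd ha (Set.notMem_empty _)
  · exact continuous_const
  · exact continuous_const

section

variable (C : Coh W)

theorem compactSpace_KS : CompactSpace (KS C) := isCompact_iff_compactSpace.mp (isCompact_KS C)

theorem scattered_K : Scattered (KS C) := by
  intro S hS
  obtain ⟨t, ht, U, hU, hUX⟩ := scattered_KS C (X := Subtype.val '' S)
    (by rintro _ ⟨x, _, rfl⟩; exact x.2) (hS.image _)
  obtain ⟨x, hx, rfl⟩ := ht
  refine ⟨x, hx, Subtype.val ⁻¹' U, hU.preimage continuous_subtype_val, ?_⟩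
  apply Set.Subset.antisymm
  · rintro y ⟨hy1, hy2⟩
    have : y.1 ∈ U ∩ Subtype.val '' S := ⟨hy1, y, hy2, rfl⟩
    rw [hUX, Set.mem_singleton_iff] at this
    exact Subtype.ext this
  · intro y hy
    rw [Set.mem_singleton_iff] at hy
    rw [hy]
    have : x.1 ∈ U ∩ Subtype.val '' S := by rw [hUX]; rfl
    exact ⟨this.1, hx⟩

/-- the indicator embedding into `ℝ^W` -/
noncomputable def emb (s : KS C) : W → ℝ := fun w => if s.1 w = true then 1 else 0

theorem valdivia_K : Valdivia (KS C) := by
  have := compactSpace_KS C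
  have hcont : Continuous (emb C) := by
    rw [continuous_pi_iff]
    intro w
    have h1 : Continuous (fun s : KS C => s.1 w) := (continuous_apply w).comp continuous_subtype_val
    have h2 : Continuous (fun b : Bool => if b = true then (1 : ℝ) else 0) :=
      continuous_of_discreteTopology
    exact h2.comp h1
  have hinj : Function.Injective (emb C) := by
    intro s t hst
    apply Subtype.ext
    funext w
    have := congrFun hst w
    unfold emb at this
    cases h1 : s.1 w <;> cases h2 : t.1 w <;> simp_all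
  refine ⟨W, emb C, (hcont.isClosedEmbedding hinj).isEmbedding, ?_⟩
  rintro _ ⟨s, rfl⟩
  have hlim : Tendsto (fun d : W => emb C ⟨res d s.1, res_KS s.2 d⟩) atTop (𝓝 (emb C s)) := by
    rw [tendsto_pi_nhds]
    intro w
    obtain ⟨b, hb⟩ := hub.gt w
    apply tendsto_const_nhds.congr'
    filter_upwards [eventually_ge_atTop b] with d hd
    have : w < d := hb.trans_le hd
    simp [emb, res, this]
  refine mem_closure_of_tendsto hlim (Eventually.of_forall (fun d => ⟨⟨_, rfl⟩, ?_⟩))
  refine (hcount d).mono ?_
  intro w hw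
  by_contra hcon
  apply hw
  have : ¬ w < d := hcon
  simp [emb, res, this]

/-- the copy of `[0, ω₁]` -/
noncomputable def copy (x : OmegaSeg) : KS C := by
  classical
  exact ⟨fun w => if val w < x.1 then true else false, by
    left
    intro a b hab hb
    have h1 : val b < x.1 := by
      by_contra hcon
      simp [hcon] at hb
    have h2 : val a < x.1 := (val_lt_val.mpr hab).trans h1
    simp [h2]⟩

theorem contains_K : ContainsOmegaSeg (KS C) := by
  classical
  have hcont : Continuous (copy C) := by
    apply Continuous.subtype_mk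
    rw [continuous_pi_iff]
    intro w
    exact continuous_ite_gt w true false
  have hlt : ∀ x y : OmegaSeg, x.1 < y.1 → copy C x ≠ copy C y := by
    intro x y hxy heq
    obtain ⟨w, hw⟩ := exists_val (lt_of_lt_of_le hxy y.2.2)
    have := congrFun (congrArg Subtype.val heq) w
    simp only [copy, hw, lt_irrefl, if_false, hxy, if_true] at this
    exact absurd this (by simp)
  have hinj : Function.Injective (copy C) := by
    intro x y hxy
    rcases lt_trichotomy x.1 y.1 with h | h | h
    · exact absurd hxy (hlt x y h)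
    · exact Subtype.ext h
    · exact absurd hxy.symm (hlt y x h)
  exact ⟨copy C, (hcont.isClosedEmbedding hinj).isEmbedding⟩

end

/-! ## No embedding -/

/-- the indicator function of `(δ, ω₁]` -/
noncomputable def u (δ : W) : C(OmegaSeg, ℝ) := by
  classical
  exact ⟨fun x => if val δ < x.1 then 1 else 0, continuous_ite_gt δ 1 0⟩

theorem u_apply (δ : W) (x : OmegaSeg) [Decidable (val δ < x.1)] :
    u δ x = if val δ < x.1 then 1 else 0 := by
  unfold u
  simp only [ContinuousMap.coe_mk]
  congr

theorem u_sub_nonneg {a b : W} (hab : a < b) (x : OmegaSeg) : 0 ≤ u a x - u b x := by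
  classical
  rw [u_apply, u_apply]
  by_cases h : val b < x.1
  · have h2 : val a < x.1 := (val_lt_val.mpr hab).trans h
    simp [h, h2]
  · by_cases h2 : val a < x.1 <;> simp [h, h2]

theorem sum_u_le (m : ℕ) (a b : ℕ → W) (hab : ∀ i, a i < b i) (hba : ∀ i, b i < a (i + 1))
    (x : OmegaSeg) : ∑ i ∈ Finset.range m, (u (a i) x - u (b i) x) ≤ 1 := by
  classical
  by_cases h : ∃ i ∈ Finset.range m, u (a i) x - u (b i) x ≠ 0
  · obtain ⟨i, hi, hne⟩ := h
    have hval : ∀ j, u (a j) x - u (b j) x ≠ 0 → val (a j) < x.1 ∧ ¬ val (b j) < x.1 := by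
      intro j hj
      rw [u_apply, u_apply] at hj
      by_cases h1 : val (b j) < x.1
      · have h2 : val (a j) < x.1 := (val_lt_val.mpr (hab j)).trans h1
        simp [h1, h2] at hj
      · refine ⟨?_, h1⟩
        by_contra h2
        simp [h1, h2] at hj
    have hmono : StrictMono a := strictMono_nat_of_lt_succ (fun j => (hab j).trans (hba j))
    have hord : ∀ j k, j < k → val (b j) < val (a k) := by
      intro j k hjk
      rw [val_lt_val]
      exact (hba j).trans_le (hmono.monotone hjk)
    rw [Finset.sum_eq_single_of_mem i hi]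
    · rw [u_apply, u_apply]
      have := hval i hne
      simp [this.1, this.2]
    · intro j _ hji
      by_contra hj
      have h1 := hval i hne
      have h2 := hval j hj
      rcases lt_or_gt_of_ne hji with h3 | h3
      · exact h2.2 ((hord j i h3).trans h1.1)
      · exact h1.2 ((hord i j h3).trans h2.1)
  · push Not at h
    rw [Finset.sum_eq_zero h]
    exact zero_le_one

theorem not_embeds (C : Coh W) [CompactSpace (KS C)] :
    ¬ EmbedsInto C(OmegaSeg, ℝ) C(KS C, ℝ) := by
  classical
  rintro ⟨Z, -, ⟨E⟩⟩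
  set T : C(OmegaSeg, ℝ) →L[ℝ] C(KS C, ℝ) := Z.subtypeL.comp (E : C(OmegaSeg, ℝ) →L[ℝ] Z) with hT
  have hbelow : ∀ f, ‖f‖ ≤ ‖(E.symm : Z →L[ℝ] C(OmegaSeg, ℝ))‖ * ‖T f‖ := by
    intro f
    have h1 := (E.symm : Z →L[ℝ] C(OmegaSeg, ℝ)).le_opNorm (E f)
    have h2 : (E.symm : Z →L[ℝ] C(OmegaSeg, ℝ)) (E f) = f := E.symm_apply_apply f
    rw [h2] at h1
    exact h1
  set e : W → (W → Bool) → ℝ := fun δ s => if h : s ∈ KS C then T (u δ) ⟨s, h⟩ else 0 with he
  have heK : ∀ δ (s : KS C), e δ s.1 = T (u δ) s := by
    intro δ s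
    rw [he]
    simp only [s.2, dif_pos]
  have hfam : Fam C e ‖T‖ := by
    refine ⟨?_, ?_⟩
    · intro δ
      rw [continuousOn_iff_continuous_domRestrict]
      have : (KS C).domRestrict (e δ) = fun s => T (u δ) s := by
        funext s
        exact heK δ s
      rw [this]
      exact (T (u δ)).continuous
    · intro m a b hab hba s hs
      set ε : ℕ → ℝ := fun i => SignType.sign (e (a i) s - e (b i) s) with hε
      set g : C(OmegaSeg, ℝ) := ∑ i ∈ Finset.range m, ε i • (u (a i) - u (b i)) with hg
      have hgn : ‖g‖ ≤ 1 := by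
        rw [ContinuousMap.norm_le _ zero_le_one]
        intro x
        have h1 : g x = ∑ i ∈ Finset.range m, ε i * (u (a i) x - u (b i) x) := by
          rw [hg, ContinuousMap.coe_sum, Finset.sum_apply]
          rfl
        rw [h1, Real.norm_eq_abs]
        calc |∑ i ∈ Finset.range m, ε i * (u (a i) x - u (b i) x)|
            ≤ ∑ i ∈ Finset.range m, |ε i * (u (a i) x - u (b i) x)| :=
              Finset.abs_sum_le_sum_abs _ _
          _ ≤ ∑ i ∈ Finset.range m, (u (a i) x - u (b i) x) := by
              apply Finset.sum_le_sum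
              intro i _
              have h2 := u_sub_nonneg (hab i) x
              rw [abs_mul, abs_of_nonneg h2]
              have h3 : |ε i| ≤ 1 := by
                rw [hε]
                simp only
                rcases SignType.sign (e (a i) s - e (b i) s) with _ | _ | _ <;> simp
              calc |ε i| * (u (a i) x - u (b i) x) ≤ 1 * (u (a i) x - u (b i) x) :=
                    mul_le_mul_of_nonneg_right h3 h2
                _ = _ := one_mul _
          _ ≤ 1 := sum_u_le m a b hab hba x
      have h4 : T g ⟨s, hs⟩ = ∑ i ∈ Finset.range m, |e (a i) s - e (b i) s| := by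
        rw [hg, map_sum, ContinuousMap.coe_sum, Finset.sum_apply]
        apply Finset.sum_congr rfl
        intro i _
        rw [map_smul, map_sub, ContinuousMap.smul_apply, ContinuousMap.sub_apply,
          ← heK (a i) ⟨s, hs⟩, ← heK (b i) ⟨s, hs⟩, smul_eq_mul, hε]
        exact sign_mul_self _
      rw [← h4]
      calc T g ⟨s, hs⟩ ≤ ‖T g ⟨s, hs⟩‖ := Real.le_norm_self _
        _ ≤ ‖T g‖ := ContinuousMap.norm_coe_le_norm _ _
        _ ≤ ‖T‖ * ‖g‖ := T.le_opNorm g
        _ ≤ ‖T‖ * 1 := mul_le_mul_of_nonneg_left hgn (ContinuousLinearMap.opNorm_nonneg _)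
        _ = ‖T‖ := mul_one _
  obtain ⟨δ, hδ, hmain⟩ := hfam.main hub hcount
  -- the test function
  have hk : ∀ k : ℕ, (k : ℝ) ≤ ‖(E.symm : Z →L[ℝ] C(OmegaSeg, ℝ))‖ * ‖T‖ := by
    intro k
    set f : C(OmegaSeg, ℝ) := ∑ i ∈ Finset.range k, u (δ i) - ∑ i ∈ Finset.range k, u (δ (k + i))
      with hf
    have hTf : ‖T f‖ ≤ ‖T‖ := by
      rw [ContinuousMap.norm_le _ (ContinuousLinearMap.opNorm_nonneg T)]
      intro s
      have h1 : T f s = ∑ i ∈ Finset.range k, e (δ i) s.1
          - ∑ i ∈ Finset.range k, e (δ (k + i)) s.1 := by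
        rw [hf, map_sub, map_sum, map_sum, ContinuousMap.sub_apply, ContinuousMap.coe_sum,
          ContinuousMap.coe_sum, Finset.sum_apply, Finset.sum_apply]
        simp only [heK]
      rw [h1, Real.norm_eq_abs]
      exact hmain k s.1 s.2
    have hfk : (k : ℝ) ≤ ‖f‖ := by
      let x : OmegaSeg := ⟨val (δ k), zero_le, (val_lt _).le⟩
      have h1 : f x = k := by
        rw [hf, ContinuousMap.sub_apply, ContinuousMap.coe_sum, ContinuousMap.coe_sum,
          Finset.sum_apply, Finset.sum_apply]
        have h2 : ∀ i ∈ Finset.range k, u (δ i) x = 1 := by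
          intro i hi
          rw [u_apply, if_pos]
          exact val_lt_val.mpr (hδ (Finset.mem_range.mp hi))
        have h3 : ∀ i ∈ Finset.range k, u (δ (k + i)) x = 0 := by
          intro i _
          rw [u_apply, if_neg]
          show ¬ val (δ (k + i)) < val (δ k)
          rw [val_lt_val, not_lt]
          exact hδ.monotone (Nat.le_add_right k i)
        rw [Finset.sum_congr rfl h2, Finset.sum_congr rfl h3]
        simp
      calc (k : ℝ) = f x := h1.symm
        _ ≤ ‖f x‖ := Real.le_norm_self _
        _ ≤ ‖f‖ := ContinuousMap.norm_coe_le_norm _ _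
    exact hfk.trans ((hbelow f).trans (mul_le_mul_of_nonneg_left hTf
      (ContinuousLinearMap.opNorm_nonneg _)))
  obtain ⟨k, hk'⟩ := exists_nat_gt (‖(E.symm : Z →L[ℝ] C(OmegaSeg, ℝ))‖ * ‖T‖)
  exact absurd (hk k) (not_le.mpr hk')

/-- There is a scattered Valdivia compact space `K` containing `[0, ω₁]` such that
`C([0, ω₁])` does not embed into `C(K)`. -/
theorem result : ∃ (K : Type) (_ : TopologicalSpace K) (_ : CompactSpace K) (_ : T2Space K),
    Scattered K ∧ Valdivia K ∧ ContainsOmegaSeg K ∧ ¬ EmbedsInto C(OmegaSeg, ℝ) C(K, ℝ) := by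
  obtain ⟨C⟩ := exists_coh W hcount
  have := compactSpace_KS C
  exact ⟨KS C, inferInstance, inferInstance, inferInstance, scattered_K C, valdivia_K C,
    contains_K C, not_embeds C⟩

end Pool.Agent.Results.MP_25ed80_an.NoEmbedding
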